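import Pool.Agent.MWG.Stmts

set_option autoImplicit false

/-!
# Squad MWG, row NFT (helper46): normal form theorem
-/

namespace Pool.Agent.MWG.H46

open Pool.Agent.Helper14_MV Pool.Agent.Helper2_MV Pool.Agent.MVO Pool.Agent.MWL Pool.Agent.MWS
open Pool.Agent.MWG

/-- the data of a doubled family -/
theorem dbs_ex (hD : DbsStmt) {β : FIC} (hβ : ClM β) {k : ℕ} {B : ℕ → List ℕ} (hB : OkB k B) :
    ∃ Bd : ℕ → List ℕ, RR β (asm k B) (asm k Bd) ∧ OkB k Bd ∧
      (∀ j c, (Bd j).count c = if Lf (ty B c) j then 1 else 2 * (B j).count c) ∧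
      ∀ j x y, x ≠ y → (Bef (Bd j) x y ↔ Bef (B j) x y) :=
  ⟨dbl2 B, hD β hβ k B hB⟩

/-- the light letters of a family of the same shape as the doubled family -/
theorem eqt_of {k : ℕ} {B Bd C : ℕ → List ℕ} (hB : OkB k B) (hC : OkB k C)
    (c1 : ∀ j c, (Bd j).count c = if Lf (ty B c) j then 1 else 2 * (B j).count c)
    (hsh : Shp k Bd C) (c : ℕ) : Eqt k (ty B c) (ty C c) := by
  by_cases hc : NS k c
  · have hs : ∀ j ≤ k, (Bd j).count c = (C j).count c ∨
        (2 ≤ (Bd j).count c ∧ 2 ≤ (C j).count c) := fun j hj => hsh c hc j hj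
    have hz : ∀ j ≤ k, (ty B c j = 0 ↔ ty C c j = 0) := by
      intro j hj
      have h1 := hs j hj
      rw [c1] at h1
      show (B j).count c = 0 ↔ (C j).count c = 0
      by_cases hl : Lf (ty B c) j
      · rw [if_pos hl] at h1
        have h2 : (B j).count c = 1 := hl.1
        omega
      · rw [if_neg hl] at h1
        omega
    have ho : ∀ j ≤ k, ((C j).count c = 1 ↔ Lf (ty B c) j) := by
      intro j hj
      have h1 := hs j hj
      rw [c1] at h1
      by_cases hl : Lf (ty B c) j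
      · rw [if_pos hl] at h1
        refine ⟨fun _ => hl, fun _ => ?_⟩
        omega
      · rw [if_neg hl] at h1
        refine ⟨fun h => ?_, fun h => absurd h hl⟩
        omega
    intro j hj
    refine ⟨hz j hj, fun h => ⟨(ho j hj).2 h, fun j' hj' => (hz j' (by omega)).1 (h.2 j' hj')⟩,
      fun h => (ho j hj).1 h.1⟩
  · intro j hj
    have h1 : ty B c j = 0 := List.count_eq_zero.2 fun h => hc (hB.ok j hj c h)
    have h2 : ty C c j = 0 := List.count_eq_zero.2 fun h => hc (hC.ok j hj c h)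
    refine ⟨iff_of_true h1 h2, iff_of_false (fun h => ?_) (fun h => ?_)⟩
    · have := h.1
      omega
    · have := h.1
      omega

/-- row NFT -/
theorem nft (hM : MasStmt) (hBs : BsmStmt) (hD : DbsStmt) (hE : ExmStmt) (hQ : EqvStmt) :
    NftStmt := by
  intro β θ hβ hle k B B' hB hB' hS H
  obtain ⟨Bd, r1, ok1, c1, b1⟩ := dbs_ex hD hβ hB
  obtain ⟨Bd', r2, ok2, c2, b2⟩ := dbs_ex hD hβ hB'
  have hrr : ∀ l l' : List ℕ, RR β l l' → RR θ l l' := fun l l' h => hle _ _ h
  refine θ.trans (hrr _ _ r1) (θ.trans ?_ (hrr _ _ r2).symm)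
  refine hM β θ (hBs β hβ).toApI hβ.itr hle k Bd Bd' ok1 ok2 ?_ ?_
  · intro c _ j hj
    show (Bd j).count c = (Bd' j).count c ∨ (2 ≤ (Bd j).count c ∧ 2 ≤ (Bd' j).count c)
    rw [c1, c2]
    obtain ⟨h1, h2⟩ := hS c j hj
    have h1' : (B j).count c = 0 ↔ (B' j).count c = 0 := h1
    by_cases hl : Lf (ty B c) j
    · rw [if_pos hl, if_pos (h2.1 hl)]
      exact Or.inl rfl
    · rw [if_neg hl, if_neg (fun h => hl (h2.2 h))]
      omega
  · intro C i A D x y hC hsh hi hCi hxy hxD hyA hbef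
    rw [b1 i x y hxy, b2 i x y hxy] at hbef
    have hq : ∀ c, Eqt k (ty B c) (ty C c) := eqt_of hB hC c1 hsh
    have hdbl : Dbl k C := by
      intro j hj c hc
      by_cases h1 : (C j).count c = 1
      · left
        have h2 := hsh c (hC.ok j hj c hc) j hj
        change (Bd j).count c = (C j).count c ∨ (2 ≤ (Bd j).count c ∧ 2 ≤ (C j).count c) at h2
        rw [c1] at h2
        have h3 : Lf (ty B c) j := by
          by_contra hl
          rw [if_neg hl] at h2
          omega
        exact ((hq c) j hj).2.1 h3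
      · right
        have := List.count_pos_iff.2 hc
        omega
    refine hE β θ hβ hle k C hC hdbl i hi A D x y hCi hxy hxD hyA ?_ ?_
    · intro hv
      obtain ⟨e1, -, e3⟩ := hQ k _ _ _ _ (hq x) (hq y)
      have h1 := (H x y i hxy ((e1 i).2 hv)).1 hbef
      unfold XR at h1 ⊢
      rw [← (e3 i hi).2]
      exact h1
    · intro hv
      obtain ⟨e1, -, e3⟩ := hQ k _ _ _ _ (hq y) (hq x)
      have h1 := (H y x i hxy.symm ((e1 i).2 hv)).2 hbef
      unfold XL at h1 ⊢
      rw [← (e3 i hi).1]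
      exact h1

end Pool.Agent.MWG.H46
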